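import Mathlib

/-!
Two facts on cardinals: closure of a set under countably many operations of countable arity, and
injective choice from large sets.
-/

set_option autoImplicit false

open Set Cardinal

namespace Pool.Agent.Lib.MP_245eb3_an.FS

universe u

/-- A set with at most continuum many elements is contained in a set with at most continuum many
elements which is closed under countably many given operations of countable arity. -/
theorem exists_closed {S : Type u} (B : Set S) (hB : #B ≤ 𝔠) {ι : Type} [Countable ι]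
    (F : ι → (ℕ → S) → S) :
    ∃ X : Set S, B ⊆ X ∧ #X ≤ 𝔠 ∧ ∀ i s, (∀ n, s n ∈ X) → F i s ∈ X := by
  let β : (B ⊕ ι) → Type := fun a => Sum.elim (fun _ => PEmpty) (fun _ => ℕ) a
  let ev : WType β → S := fun t => WType.elim S (fun p => match p with
    | ⟨Sum.inl b, _⟩ => (b : S)
    | ⟨Sum.inr i, s⟩ => F i s) t
  have hW : #(WType β) ≤ 𝔠 := by
    apply WType.cardinalMk_le_of_le'
    have h1 : ∀ a : B ⊕ ι, (𝔠 : Cardinal.{u}) ^ lift.{u} #(β a) ≤ 𝔠 := by
      intro a
      rcases a with b | i
      · simp only [β, Sum.elim_inl, mk_pempty, lift_zero, power_zero]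
        exact (one_lt_aleph0.trans_le aleph0_le_continuum).le
      · simp [β, Sum.elim_inr]
    calc (sum fun a : B ⊕ ι => (𝔠 : Cardinal.{u}) ^ lift.{u} #(β a))
        ≤ sum fun _ : B ⊕ ι => (𝔠 : Cardinal.{u}) := sum_le_sum _ _ h1
      _ = #(B ⊕ ι) * 𝔠 := sum_const' _ _
      _ ≤ 𝔠 * 𝔠 := by
        gcongr
        rw [mk_sum, lift_id']
        refine (add_le_add hB ?_).trans continuum_add_self.le
        have h2 : #ι ≤ ℵ₀ := mk_le_aleph0
        calc lift.{u} #ι ≤ lift.{u} ℵ₀ := lift_le.mpr h2
          _ = ℵ₀ := lift_aleph0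
          _ ≤ 𝔠 := aleph0_le_continuum
      _ = 𝔠 := by simp
  refine ⟨range ev, ?_, mk_range_le.trans hW, ?_⟩
  · intro b hb
    exact ⟨WType.mk (Sum.inl ⟨b, hb⟩) (fun x => PEmpty.elim x), rfl⟩
  · intro i s hs
    choose t ht using hs
    refine ⟨WType.mk (Sum.inr i) t, ?_⟩
    show F i (fun n => ev (t n)) = F i s
    congr 1
    funext n
    exact ht n

/-- Injective choice, in one universe. -/
theorem exists_injective_choice_aux {Q : Type} (hQ : #Q ≤ 𝔠) (T : Q → Set (Set ℕ))
    (hT : ∀ q, 𝔠 ≤ #(T q)) : ∃ t : Q → Set ℕ, Function.Injective t ∧ ∀ q, t q ∈ T q := by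
  classical
  obtain ⟨r, hwo, hr⟩ := Cardinal.exists_ord_eq Q
  have hne : ∀ (q : Q) (g : ∀ q', r q' q → Set ℕ), ∃ A ∈ T q, ∀ q' (h : r q' q), g q' h ≠ A := by
    intro q g
    by_contra hcon
    push Not at hcon
    have h1 : #{q' // r q' q} < #Q := by
      have := card_typein_lt (r := r) q hr
      rwa [Ordinal.card_typein] at this
    have h2 : #(T q) ≤ #{q' // r q' q} := by
      choose f hf hfg using hcon
      refine mk_le_of_injective (f := fun A : T q => (⟨f A.1 A.2, hf A.1 A.2⟩ : {q' // r q' q})) ?_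
      intro A A' h
      have h3 := congrArg (fun x : {q' // r q' q} => g x.1 x.2) h
      simp only at h3
      rw [hfg A.1 A.2, hfg A'.1 A'.2] at h3
      exact Subtype.ext h3
    exact absurd ((hT q).trans h2) (not_le.mpr (h1.trans_le hQ))
  let t : Q → Set ℕ := hwo.wf.fix fun q g => (hne q g).choose
  have ht : ∀ q, t q = (hne q fun q' _ => t q').choose := fun q => hwo.wf.fix_eq _ q
  refine ⟨t, ?_, ?_⟩
  · intro q q' hqq
    by_contra hne'
    rcases trichotomous_of r q q' with h | h | h
    · have := (hne q' fun q'' _ => t q'').choose_spec.2 q h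
      rw [← ht q'] at this
      exact this hqq
    · exact hne' h
    · have := (hne q fun q'' _ => t q'').choose_spec.2 q' h
      rw [← ht q] at this
      exact this hqq.symm
  · intro q
    rw [ht q]
    exact (hne q fun q'' _ => t q'').choose_spec.1

/-- Injective choice of sets of natural numbers from at most continuum many families with
continuum many members. -/
theorem exists_injective_choice {Q : Type u} (hQ : #Q ≤ 𝔠) (T : Q → Set (Set ℕ))
    (hT : ∀ q, 𝔠 ≤ #(T q)) : ∃ t : Q → Set ℕ, Function.Injective t ∧ ∀ q, t q ∈ T q := by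
  have h1 : lift.{0} #Q ≤ lift.{u} #(Set ℕ) := by
    simpa using hQ
  obtain ⟨j⟩ := lift_mk_le'.mp h1
  obtain ⟨t, ht, htT⟩ := exists_injective_choice_aux (Q := range j)
    ((mk_set_le _).trans (by simp)) (fun q => T q.2.choose) (fun q => hT _)
  refine ⟨fun q => t ⟨j q, q, rfl⟩, ?_, ?_⟩
  · intro q q' h
    have := ht h
    simp only [Subtype.mk.injEq] at this
    exact j.injective this
  · intro q
    have h2 := htT ⟨j q, q, rfl⟩
    have h3 : (⟨j q, q, rfl⟩ : range j).2.choose = q :=
      j.injective (⟨j q, q, rfl⟩ : range j).2.choose_spec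
    rw [h3] at h2
    exact h2

end Pool.Agent.Lib.MP_245eb3_an.FS
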