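import Pool.Agent.Lib.MP_245eb3_an.FS.Limit
import Pool.Agent.Lib.MP_245eb3_an.FS.Card
import Pool.Agent.Lib.MP_245eb3_an.SI.Vector

/-!
Preimages of weakly Borel sets are decided; a uniformly discrete set which is not decided.
-/

set_option autoImplicit false

open Set Cardinal
open scoped MeasureTheory
open Pool.Agent.Lib.WeakBorel

namespace Pool.Agent.Lib.MP_245eb3_an.FS

universe u

namespace Sys

variable {L : Type u} [TopologicalSpace L] {S : Sys L}

section Weak

variable [CompactSpace L]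

/-- Weakly open sets are decided. -/
theorem decided_of_isOpen {U : Set (WeakSpace ℝ C(L, ℝ))} (hU : IsOpen U) :
    Decided S {z | toWeakSpace ℝ C(L, ℝ) z ∈ U} := by
  intro a x hc
  by_cases h : ∃ z ∈ S.X, S.Clean z ∧ (∀ t, a t = 0 → z t = x t) ∧ toWeakSpace ℝ C(L, ℝ) z ∈ U
  · obtain ⟨z, hz, hzc, hza, hzU⟩ := h
    obtain ⟨s, ε, hε, hs⟩ := SI.weak_nhds hU hzU
    obtain ⟨a', ha', ha'a, hsm⟩ := hc.1.small_finset s (half_pos hε)
    refine ⟨a', z, ⟨ha', hz, hzc⟩, ha'a, hza, Or.inl ?_⟩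
    intro z' hz' hzc' hzz'
    apply hs
    intro φ hφ
    rw [← map_sub]
    refine lt_of_le_of_lt (hsm φ hφ (z' - z) ?_ ?_) (half_lt_self hε)
    · rw [ContinuousMap.norm_le _ zero_le_one]
      intro t
      rw [ContinuousMap.sub_apply, Real.norm_eq_abs, abs_le]
      have h1 := hzc.1 t
      have h2 := hzc'.1 t
      exact ⟨by linarith, by linarith⟩
    · intro t ht
      rw [ContinuousMap.sub_apply, hzz' t ht, sub_self]
  · push Not at h
    exact ⟨a, x, hc, fun t ht => ht, fun t _ => rfl, Or.inr h⟩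

/-- Weakly Borel sets are decided. -/
theorem decided_of_borel {D : Set C(L, ℝ)} (hD : MeasurableSet[wBorel C(L, ℝ)] D) :
    Decided S D := by
  obtain ⟨B, hB, rfl⟩ := hD
  have h1 : borel (WeakSpace ℝ C(L, ℝ)) ≤
      MeasurableSpace.map (fun z => toWeakSpace ℝ C(L, ℝ) z) S.decidedSpace := by
    apply MeasurableSpace.generateFrom_le
    intro U hU
    exact decided_of_isOpen hU
  exact h1 B hB

end Weak

/-- Truncation to `[0, 1]`. -/
noncomputable def trunc (f : C(L, ℝ)) : C(L, ℝ) := f ⊔ 0 - (f ⊔ 0 - 1) ⊔ 0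

variable (S) in
theorem trunc_mem {f : C(L, ℝ)} (hf : f ∈ S.X) : trunc f ∈ S.X :=
  S.sub _ (S.pos _ hf) _ (S.pos _ (S.sub _ (S.pos _ hf) _ S.one))

theorem trunc_apply (f : C(L, ℝ)) (t : L) :
    trunc f t = max (f t) 0 - max (max (f t) 0 - 1) 0 := by
  unfold trunc
  rw [ContinuousMap.sub_apply, ContinuousMap.sup_apply, ContinuousMap.sup_apply,
    ContinuousMap.sub_apply, ContinuousMap.sup_apply, ContinuousMap.one_apply,
    ContinuousMap.zero_apply]

theorem trunc_bd (f : C(L, ℝ)) (t : L) : 0 ≤ trunc f t ∧ trunc f t ≤ 1 := by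
  rw [trunc_apply]
  have h1 : 0 ≤ max (f t) 0 := le_max_right _ _
  rcases le_total (max (f t) 0 - 1) 0 with h | h
  · rw [max_eq_right h]
    exact ⟨by linarith, by linarith⟩
  · rw [max_eq_left h]
    exact ⟨by linarith, by linarith⟩

theorem trunc_eq {f : C(L, ℝ)} {t : L} (h0 : 0 ≤ f t) (h1 : f t ≤ 1) : trunc f t = f t := by
  rw [trunc_apply, max_eq_left h0, max_eq_right (by linarith), sub_zero]

/-- Flipping a clean function on a set of indices in the trace of a region. -/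
theorem exists_flip {a x : C(L, ℝ)} (hc : Cond S a x) {A : Set ℕ} (hA : A ⊆ S.ta a) :
    ∃ z ∈ S.X, S.Clean z ∧ (∀ t, a t = 0 → z t = x t) ∧
      (∀ n ∈ A, z (S.p n) = 1 - x (S.p n)) ∧ ∀ n, n ∉ A → z (S.p n) = x (S.p n) := by
  obtain ⟨g, hg, hg01, hg1, hg0⟩ := S.exists_sel A
  obtain ⟨y, hy, hy01, hye⟩ := S.interp S.ψ S.e S.ψX S.eX S.e01 (by
    intro k l t hk hl
    by_cases hkl : k = l
    · rw [hkl]
    · exact absurd (S.ψψ hkl hk) hl)
  obtain ⟨ha, hx, hxc⟩ := hc
  have hX : x + a * g * (y - x - x) ∈ S.X :=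
    S.add _ hx _ (S.mul _ (S.mul _ ha.mem _ hg) _ (S.sub _ (S.sub _ hy _ hx) _ hx))
  have hval : ∀ t, (x + a * g * (y - x - x)) t = x t + a t * g t * (y t - x t - x t) := by
    intro t
    simp only [ContinuousMap.add_apply, ContinuousMap.mul_apply, ContinuousMap.sub_apply]
  -- the values on the supports of the `ψ n`
  have h1 : ∀ n ∈ A, ∀ t, S.ψ n t ≠ 0 →
      (x + a * g * (y - x - x)) t = (1 - x (S.p n)) * S.e n t := by
    intro n hn t ht
    rw [hval, hg1 n hn t ht, hye n t ht, (hxc.2 n).2 t ht]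
    by_cases he : S.e n t = 0
    · rw [he]
      ring
    · rw [ha.one_of_mem (hA hn) he]
      ring
  have h0 : ∀ n, n ∉ A → ∀ t, S.ψ n t ≠ 0 →
      (x + a * g * (y - x - x)) t = x (S.p n) * S.e n t := by
    intro n hn t ht
    rw [hval, hg0 n hn t ht, (hxc.2 n).2 t ht]
    ring
  have hbd1 : ∀ n ∈ A, ∀ t, S.ψ n t ≠ 0 → 0 ≤ (x + a * g * (y - x - x)) t ∧
      (x + a * g * (y - x - x)) t ≤ 1 := by
    intro n hn t ht
    rw [h1 n hn t ht]
    have he := S.e01 n t
    rcases (hxc.2 n).1 with h | h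
    · rw [h]
      constructor <;> linarith [he.1, he.2]
    · rw [h]
      constructor <;> linarith [he.1, he.2]
  have hbd0 : ∀ n, n ∉ A → ∀ t, S.ψ n t ≠ 0 → 0 ≤ (x + a * g * (y - x - x)) t ∧
      (x + a * g * (y - x - x)) t ≤ 1 := by
    intro n hn t ht
    rw [h0 n hn t ht]
    have he := S.e01 n t
    rcases (hxc.2 n).1 with h | h
    · rw [h]
      constructor <;> linarith [he.1, he.2]
    · rw [h]
      constructor <;> linarith [he.1, he.2]
  have ht1 : ∀ n ∈ A, ∀ t, S.ψ n t ≠ 0 →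
      trunc (x + a * g * (y - x - x)) t = (1 - x (S.p n)) * S.e n t := by
    intro n hn t ht
    rw [trunc_eq (hbd1 n hn t ht).1 (hbd1 n hn t ht).2, h1 n hn t ht]
  have ht0 : ∀ n, n ∉ A → ∀ t, S.ψ n t ≠ 0 →
      trunc (x + a * g * (y - x - x)) t = x (S.p n) * S.e n t := by
    intro n hn t ht
    rw [trunc_eq (hbd0 n hn t ht).1 (hbd0 n hn t ht).2, h0 n hn t ht]
  have hp1 : ∀ n ∈ A, trunc (x + a * g * (y - x - x)) (S.p n) = 1 - x (S.p n) := by
    intro n hn
    rw [ht1 n hn _ (S.ψp' n), S.ep, mul_one]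
  have hp0 : ∀ n, n ∉ A → trunc (x + a * g * (y - x - x)) (S.p n) = x (S.p n) := by
    intro n hn
    rw [ht0 n hn _ (S.ψp' n), S.ep, mul_one]
  refine ⟨trunc (x + a * g * (y - x - x)), S.trunc_mem hX, ⟨trunc_bd _, ?_⟩, ?_, hp1, hp0⟩
  · intro n
    by_cases hn : n ∈ A
    · rw [hp1 n hn]
      refine ⟨?_, ht1 n hn⟩
      rcases (hxc.2 n).1 with h | h
      · right
        rw [h, sub_zero]
      · left
        rw [h, sub_self]
    · rw [hp0 n hn]
      exact ⟨(hxc.2 n).1, ht0 n hn⟩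
  · intro t ht
    have h2 : (x + a * g * (y - x - x)) t = x t := by
      rw [hval, ht]
      ring
    rw [trunc_eq (by rw [h2]; exact (hxc.1 t).1) (by rw [h2]; exact (hxc.1 t).2), h2]

/-- The traces of the members of a cone. -/
def traces (S : Sys L) (a x : C(L, ℝ)) : Set (Set ℕ) :=
  {A | ∃ z ∈ S.X, S.Clean z ∧ (∀ t, a t = 0 → z t = x t) ∧ {n | z (S.p n) = 1} = A}

theorem continuum_le_traces {a x : C(L, ℝ)} (hc : Cond S a x) : 𝔠 ≤ #(traces S a x) := by
  let f := hc.1.inf.natEmbedding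
  have hf : ∀ A : Set ℕ, (fun i => (f i : ℕ)) '' A ⊆ S.ta a := by
    rintro A _ ⟨i, -, rfl⟩
    exact (f i).2
  choose z hz hzc hza hz1 hz0 using fun A : Set ℕ => exists_flip hc (hf A)
  rw [← mk_set_nat]
  refine mk_le_of_injective (f := fun A : Set ℕ =>
    (⟨{n | z A (S.p n) = 1}, z A, hz A, hzc A, hza A, rfl⟩ : traces S a x)) ?_
  intro A B hAB
  have h1 : {n | z A (S.p n) = 1} = {n | z B (S.p n) = 1} := congrArg Subtype.val hAB
  have h2 : ∀ n, z A (S.p n) = z B (S.p n) := by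
    intro n
    have h3 : z A (S.p n) = 1 ↔ z B (S.p n) = 1 := by
      have : n ∈ {n | z A (S.p n) = 1} ↔ n ∈ {n | z B (S.p n) = 1} := by rw [h1]
      exact this
    rcases ((hzc A).2 n).1 with h4 | h4
    · rcases ((hzc B).2 n).1 with h5 | h5
      · rw [h4, h5]
      · rw [h4] at h3
        exact absurd (h3.mpr h5) zero_ne_one
    · rw [h4, h3.mp h4]
  have hmem : ∀ (A : Set ℕ) i, i ∈ A ↔ z A (S.p (f i : ℕ)) = 1 - x (S.p (f i : ℕ)) := by
    intro A i
    constructor
    · intro hi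
      exact hz1 A _ ⟨i, hi, rfl⟩
    · intro h
      by_contra hi
      have h3 : (f i : ℕ) ∉ (fun i => (f i : ℕ)) '' A := by
        rintro ⟨j, hj, hji⟩
        have : j = i := f.injective (Subtype.ext hji)
        exact hi (this ▸ hj)
      rw [hz0 A _ h3] at h
      rcases (hc.2.2.2 (f i : ℕ)).1 with h4 | h4
      · rw [h4] at h
        norm_num at h
      · rw [h4] at h
        norm_num at h
  ext i
  rw [hmem A i, hmem B i, h2]

/-- A uniformly discrete set which is not weakly Borel. -/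
theorem exists_discrete [CompactSpace L] (hX : #S.X ≤ 𝔠) :
    ∃ D : Set C(L, ℝ), (∃ δ > 0, ∀ x ∈ D, ∀ y ∈ D, x ≠ y → δ ≤ ‖x - y‖) ∧
      ¬ MeasurableSet[wBorel C(L, ℝ)] D := by
  let Q : Type u := {q : C(L, ℝ) × C(L, ℝ) // Cond S q.1 q.2}
  have hQ : #(Q × Bool) ≤ 𝔠 := by
    have h1 : #Q ≤ #(S.X × S.X) := by
      refine mk_le_of_injective (f := fun q : Q =>
        ((⟨q.1.1, q.2.1.mem⟩, ⟨q.1.2, q.2.2.1⟩) : S.X × S.X)) ?_
      intro q q' h
      have h2 := congrArg (fun r : S.X × S.X => (r.1 : C(L, ℝ))) h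
      have h3 := congrArg (fun r : S.X × S.X => (r.2 : C(L, ℝ))) h
      exact Subtype.ext (Prod.ext h2 h3)
    have h2 : #(S.X × S.X) ≤ 𝔠 := by
      rw [mk_prod, lift_id]
      exact (mul_le_mul' hX hX).trans continuum_mul_self.le
    have h3 : #(Q × Bool) = #Q * 2 := by
      rw [mk_prod]
      simp
    rw [h3]
    calc #Q * 2 ≤ 𝔠 * 𝔠 := mul_le_mul' (h1.trans h2) (nat_lt_continuum 2).le
      _ = 𝔠 := continuum_mul_self
  obtain ⟨τ, hτ, hτT⟩ := exists_injective_choice hQ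
    (fun q => traces S q.1.1.1 q.1.1.2) (fun q => continuum_le_traces q.1.2)
  choose z hz hzc hza hzτ using hτT
  have hsep : ∀ q q', z q ≠ z q' → 1 ≤ ‖z q - z q'‖ := by
    intro q q' hne
    have h1 : {n | z q (S.p n) = 1} ≠ {n | z q' (S.p n) = 1} := by
      rw [hzτ q, hzτ q']
      intro h
      exact hne (by rw [hτ h])
    obtain ⟨n, hn⟩ : ∃ n, ¬ (z q (S.p n) = 1 ↔ z q' (S.p n) = 1) := by
      by_contra hcon
      push Not at hcon
      exact h1 (Set.ext hcon)
    have h2 := ContinuousMap.norm_coe_le_norm (z q - z q') (S.p n)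
    refine le_trans ?_ h2
    rw [ContinuousMap.sub_apply, Real.norm_eq_abs]
    rcases ((hzc q).2 n).1 with h3 | h3
    · rcases ((hzc q').2 n).1 with h4 | h4
      · exfalso
        rw [h3, h4] at hn
        exact hn Iff.rfl
      · rw [h3, h4]
        norm_num
    · rcases ((hzc q').2 n).1 with h4 | h4
      · rw [h3, h4]
        norm_num
      · exfalso
        rw [h3, h4] at hn
        exact hn Iff.rfl
  refine ⟨range fun q : Q => z (q, true), ⟨1, one_pos, ?_⟩, ?_⟩
  · rintro _ ⟨q, rfl⟩ _ ⟨q', rfl⟩ hne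
    exact hsep _ _ hne
  · intro hD
    have h0 : Cond S 1 0 := by
      refine ⟨S.region_one, S.zero, ?_, ?_⟩
      · intro t
        rw [ContinuousMap.zero_apply]
        norm_num
      · intro n
        refine ⟨Or.inl rfl, ?_⟩
        intro t _
        rw [ContinuousMap.zero_apply, ContinuousMap.zero_apply, zero_mul]
    obtain ⟨a', x', hc', -, -, h⟩ := decided_of_borel (S := S) hD 1 0 h0
    let q : Q := ⟨(a', x'), hc'⟩
    rcases h with h | h
    · obtain ⟨q', hq'⟩ := h (z (q, false)) (hz (q, false)) (hzc (q, false)) (hza (q, false))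
      have h1 : τ (q', true) = τ (q, false) := by
        rw [← hzτ (q', true), ← hzτ (q, false)]
        simp only at hq'
        rw [hq']
      have h2 := hτ h1
      have h3 := congrArg Prod.snd h2
      exact Bool.noConfusion h3
    · exact h (z (q, true)) (hz (q, true)) (hzc (q, true)) (hza (q, true)) ⟨q, rfl⟩

end Sys

end Pool.Agent.Lib.MP_245eb3_an.FS
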