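import Pool.Agent.Lib.MP_245eb3_an.FS.Borel
import Pool.Agent.Lib.MP_245eb3_an.Main

/-!
Compact F-spaces.
-/

set_option autoImplicit false

open Set Cardinal Filter Topology
open scoped MeasureTheory
open Pool.Agent.Lib.WeakBorel

namespace Pool.Agent.Lib.MP_245eb3_an.FS

universe u v

/-- `L` is an F-space: every bounded continuous function on a cozero set extends to a continuous
function on `L`. -/
def FSpace (L : Type u) [TopologicalSpace L] : Prop :=
  ∀ (u : C(L, ℝ)) (h : {t // u t ≠ 0} → ℝ), Continuous h → (∃ C, ∀ t, |h t| ≤ C) →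
    ∃ g : C(L, ℝ), ∀ t : {t // u t ≠ 0}, g t = h t

section

variable {L : Type u} [TopologicalSpace L]

/-- Countable interpolation. -/
theorem FSpace.interp [CompactSpace L] (hL : FSpace L) (w h : ℕ → C(L, ℝ))
    (h01 : ∀ k t, 0 ≤ h k t ∧ h k t ≤ 1)
    (hwh : ∀ k l t, w k t ≠ 0 → w l t ≠ 0 → h k t = h l t) :
    ∃ g : C(L, ℝ), (∀ t, 0 ≤ g t ∧ g t ≤ 1) ∧ ∀ k t, w k t ≠ 0 → g t = h k t := by
  classical
  let v : ℕ → C(L, ℝ) := fun k => ((1 / 2 : ℝ) ^ k) • (|w k| ⊓ 1)
  have hv : ∀ k t, v k t = (1 / 2 : ℝ) ^ k * min |w k t| 1 := by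
    intro k t
    simp only [v, ContinuousMap.smul_apply, ContinuousMap.inf_apply, ContinuousMap.abs_apply,
      ContinuousMap.one_apply, smul_eq_mul]
  have hv0 : ∀ k t, 0 ≤ v k t := by
    intro k t
    rw [hv]
    have := le_min (abs_nonneg (w k t)) (zero_le_one (α := ℝ))
    positivity
  have hsum : Summable v := by
    refine Summable.of_norm_bounded summable_geometric_two ?_
    intro k
    rw [ContinuousMap.norm_le _ (by positivity)]
    intro t
    rw [Real.norm_eq_abs, abs_of_nonneg (hv0 k t), hv]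
    have : min |w k t| 1 ≤ 1 := min_le_right _ _
    calc (1 / 2 : ℝ) ^ k * min |w k t| 1 ≤ (1 / 2 : ℝ) ^ k * 1 := by gcongr
      _ = (1 / 2 : ℝ) ^ k := mul_one _
  have hu : ∀ t, (∑' k, v k) t = ∑' k, v k t := fun t => (ContinuousMap.tsum_apply hsum t).symm
  have hsum' : ∀ t, Summable fun k => v k t := fun t => ContinuousMap.summable_apply hsum t
  have hu1 : ∀ t, (∑' k, v k) t ≠ 0 → ∃ k, w k t ≠ 0 := by
    intro t ht
    by_contra hcon
    push Not at hcon
    apply ht
    rw [hu]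
    have : (fun k => v k t) = fun _ => 0 := by
      funext k
      rw [hv, hcon k]
      simp
    rw [this, tsum_zero]
  have hu2 : ∀ t k, w k t ≠ 0 → (∑' k, v k) t ≠ 0 := by
    intro t k hk
    rw [hu]
    have h1 : 0 < v k t := by
      rw [hv]
      have h2 : 0 < |w k t| := abs_pos.mpr hk
      have h3 : 0 < min |w k t| 1 := lt_min h2 zero_lt_one
      positivity
    exact ((hsum' t).tsum_pos (fun k => hv0 k t) k h1).ne'
  choose κ hκ using fun t : {t // (∑' k, v k) t ≠ 0} => hu1 t t.2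
  obtain ⟨g, hg⟩ := hL (∑' k, v k) (fun t => h (κ t) t) (by
    rw [continuous_iff_continuousAt]
    intro t
    have h1 : ContinuousAt (fun s : {t // (∑' k, v k) t ≠ 0} => h (κ t) s) t := by fun_prop
    refine h1.congr ?_
    have h2 : IsOpen {s : {t // (∑' k, v k) t ≠ 0} | w (κ t) s ≠ 0} :=
      isOpen_ne_fun (by fun_prop) continuous_const
    filter_upwards [h2.mem_nhds (hκ t)] with s hs
    exact hwh _ _ _ hs (hκ s)) ⟨1, by
      intro t
      rw [abs_le]
      have := h01 (κ t) t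
      constructor <;> linarith⟩
  refine ⟨Sys.trunc g, Sys.trunc_bd g, ?_⟩
  intro k t hk
  have h1 := hg ⟨t, hu2 t k hk⟩
  simp only at h1
  have h2 : g t = h k t := by
    rw [h1]
    exact hwh _ _ _ (hκ ⟨t, hu2 t k hk⟩) hk
  rw [Sys.trunc_eq (by rw [h2]; exact (h01 k t).1) (by rw [h2]; exact (h01 k t).2), h2]

open Classical in
/-- A chosen interpolating function. -/
noncomputable def ext (w h : ℕ → C(L, ℝ)) : C(L, ℝ) :=
  if H : ∃ g : C(L, ℝ), (∀ t, 0 ≤ g t ∧ g t ≤ 1) ∧ ∀ k t, w k t ≠ 0 → g t = h k t then H.choose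
  else 0

/-- The operations. -/
noncomputable def ops : Fin 5 → (ℕ → C(L, ℝ)) → C(L, ℝ)
  | 0 => fun s => s 0 + s 1
  | 1 => fun s => s 0 - s 1
  | 2 => fun s => s 0 * s 1
  | 3 => fun s => s 0 ⊔ 0
  | 4 => fun s => ext (fun k => s (2 * k)) (fun k => s (2 * k + 1))

/-- A pair as a sequence. -/
def pair (f g : C(L, ℝ)) : ℕ → C(L, ℝ)
  | 0 => f
  | _ + 1 => g

theorem pair_mem {X : Set C(L, ℝ)} {f g : C(L, ℝ)} (hf : f ∈ X) (hg : g ∈ X) (n : ℕ) :
    pair f g n ∈ X := by
  cases n with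
  | zero => exact hf
  | succ n => exact hg

/-- Three disjoint sequences of bump functions. -/
theorem exists_bumps [CompactSpace L] [T2Space L] [Infinite L] :
    ∃ (e ψ χ : ℕ → C(L, ℝ)) (p : ℕ → L), (∀ n t, 0 ≤ e n t ∧ e n t ≤ 1) ∧
      (∀ n t, 0 ≤ ψ n t ∧ ψ n t ≤ 1) ∧ (∀ n t, 0 ≤ χ n t ∧ χ n t ≤ 1) ∧ (∀ n, e n (p n) = 1) ∧
      (∀ n t, e n t ≠ 0 → ψ n t = 1) ∧ (∀ n t, ψ n t ≠ 0 → χ n t = 1) ∧
      ∀ m n t, m ≠ n → χ m t ≠ 0 → χ n t = 0 := by
  obtain ⟨U, hUi, hUo, hUd⟩ := exists_seq_infinite_isOpen_pairwise_disjoint L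
  choose p hp using fun n => (hUi n).nonempty
  have hU : ∀ n, ∃ f : C(L, ℝ), EqOn f 0 (U n)ᶜ ∧ EqOn f 1 {p n} ∧ ∀ x, f x ∈ Icc (0 : ℝ) 1 := by
    intro n
    apply exists_continuous_zero_one_of_isClosed (hUo n).isClosed_compl isClosed_singleton
    rw [disjoint_singleton_right]
    exact fun h => h (hp n)
  choose f hf0 hf1 hf01 using hU
  have hfp : ∀ n, f n (p n) = 1 := fun n => hf1 n rfl
  refine ⟨fun n => ⟨fun t => max (4 * f n t - 3) 0, by fun_prop⟩,
    fun n => ⟨fun t => min (max (4 * f n t - 2) 0) 1, by fun_prop⟩,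
    fun n => ⟨fun t => min (max (4 * f n t - 1) 0) 1, by fun_prop⟩, p, ?_, ?_, ?_, ?_, ?_, ?_, ?_⟩
  · intro n t
    simp only [ContinuousMap.coe_mk]
    have := hf01 n t
    exact ⟨le_max_right _ _, max_le (by linarith [this.2]) zero_le_one⟩
  · intro n t
    simp only [ContinuousMap.coe_mk]
    exact ⟨le_min (le_max_right _ _) zero_le_one, min_le_right _ _⟩
  · intro n t
    simp only [ContinuousMap.coe_mk]
    exact ⟨le_min (le_max_right _ _) zero_le_one, min_le_right _ _⟩
  · intro n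
    simp only [ContinuousMap.coe_mk]
    rw [hfp]
    norm_num
  · intro n t ht
    simp only [ContinuousMap.coe_mk] at ht ⊢
    have h1 : 0 < 4 * f n t - 3 := by
      by_contra hcon
      exact ht (max_eq_right (not_lt.mp hcon))
    rw [min_eq_right]
    exact le_max_of_le_left (by linarith)
  · intro n t ht
    simp only [ContinuousMap.coe_mk] at ht ⊢
    have h1 : 0 < 4 * f n t - 2 := by
      by_contra hcon
      apply ht
      rw [max_eq_right (not_lt.mp hcon), min_eq_left zero_le_one]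
    rw [min_eq_right]
    exact le_max_of_le_left (by linarith)
  · intro m n t hmn ht
    simp only [ContinuousMap.coe_mk] at ht ⊢
    have h1 : t ∈ U m := by
      by_contra hcon
      apply ht
      have h2 : f m t = 0 := hf0 m hcon
      rw [h2]
      norm_num
    have h2 : t ∉ U n := fun h => (Set.disjoint_left.mp (hUd hmn)) h1 h
    have h3 : f n t = 0 := hf0 n h2
    rw [h3]
    norm_num

/-- Infinite compact F-spaces carry a system of functions with at most continuum many members. -/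
theorem exists_sys [CompactSpace L] [T2Space L] [Infinite L] (hL : FSpace L) :
    ∃ S : Sys L, #S.X ≤ 𝔠 := by
  obtain ⟨e, ψ, χ, p, he, hψ, hχ, hep, heψ, hψχ, hdis⟩ := exists_bumps (L := L)
  obtain ⟨X, hBX, hX, hop⟩ := exists_closed ({1} ∪ range e ∪ range ψ ∪ range χ : Set C(L, ℝ))
    ((Set.Countable.le_aleph0 ((((countable_singleton _).union (countable_range e)).union
      (countable_range ψ)).union (countable_range χ))).trans aleph0_le_continuum) ops
  have hadd : ∀ f ∈ X, ∀ g ∈ X, f + g ∈ X := fun f hf g hg => hop 0 (pair f g) (pair_mem hf hg)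
  have hsub : ∀ f ∈ X, ∀ g ∈ X, f - g ∈ X := fun f hf g hg => hop 1 (pair f g) (pair_mem hf hg)
  have hmul : ∀ f ∈ X, ∀ g ∈ X, f * g ∈ X := fun f hf g hg => hop 2 (pair f g) (pair_mem hf hg)
  have hpos : ∀ f ∈ X, f ⊔ 0 ∈ X := fun f hf => hop 3 (pair f f) (pair_mem hf hf)
  have hext : ∀ w h : ℕ → C(L, ℝ), (∀ k, w k ∈ X) → (∀ k, h k ∈ X) → ext w h ∈ X := by
    intro w h hw hh
    have h1 := hop 4 (fun n => if n % 2 = 0 then w (n / 2) else h (n / 2)) (by
      intro n
      split_ifs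
      · exact hw _
      · exact hh _)
    have h2 : (fun k => (fun n => if n % 2 = 0 then w (n / 2) else h (n / 2)) (2 * k)) = w := by
      funext k
      have h3 : 2 * k % 2 = 0 := by omega
      have h4 : 2 * k / 2 = k := by omega
      simp only [h3, h4, if_true]
    have h2' : (fun k => (fun n => if n % 2 = 0 then w (n / 2) else h (n / 2)) (2 * k + 1)) = h := by
      funext k
      have h3 : (2 * k + 1) % 2 = 1 := by omega
      have h4 : (2 * k + 1) / 2 = k := by omega
      simp only [h3, h4, one_ne_zero, if_false]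
    have h5 : ext (fun k => (fun n => if n % 2 = 0 then w (n / 2) else h (n / 2)) (2 * k))
        (fun k => (fun n => if n % 2 = 0 then w (n / 2) else h (n / 2)) (2 * k + 1)) ∈ X := h1
    rw [h2, h2'] at h5
    exact h5
  refine ⟨{
    X := X
    e := e
    ψ := ψ
    χ := χ
    p := p
    one := hBX (Or.inl (Or.inl (Or.inl rfl)))
    add := hadd
    sub := hsub
    mul := hmul
    pos := hpos
    interp := ?_
    eX := fun n => hBX (Or.inl (Or.inl (Or.inr ⟨n, rfl⟩)))
    ψX := fun n => hBX (Or.inl (Or.inr ⟨n, rfl⟩))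
    χX := fun n => hBX (Or.inr ⟨n, rfl⟩)
    e01 := he
    ψ01 := hψ
    χ01 := hχ
    ep := hep
    eψ := heψ
    ψχ := hψχ
    dis := hdis }, hX⟩
  intro w h hw hh h01 hwh
  have H := hL.interp w h h01 hwh
  refine ⟨ext w h, hext w h hw hh, ?_⟩
  have h1 : ext w h = H.choose := by
    unfold ext
    rw [dif_pos H]
  rw [h1]
  exact H.choose_spec

end

/-- The theorem for infinite compact F-spaces, and spaces which contain `C(L)`. -/
theorem fspace_case {L : Type u} [TopologicalSpace L] [CompactSpace L] [T2Space L] [Infinite L]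
    (hL : FSpace L) {G : Type v} [NormedAddCommGroup G] [NormedSpace ℝ G]
    (J : C(L, ℝ) →L[ℝ] G) {c : ℝ} (hc : 0 < c) (hJ : ∀ y, c * ‖y‖ ≤ ‖J y‖) :
    ∃ D : Set G, (∃ δ > 0, ∀ x ∈ D, ∀ y ∈ D, x ≠ y → δ ≤ ‖x - y‖) ∧
      ¬ MeasurableSet[wBorel G] D := by
  obtain ⟨S, hS⟩ := exists_sys hL
  exact transfer J hc hJ (Sys.exists_discrete hS)

end Pool.Agent.Lib.MP_245eb3_an.FS
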