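import Pool.Agent.Lib.MP_245eb3_an.FS.Sys

/-!
The fusion lemma for systems of functions with countable interpolation.
-/

set_option autoImplicit false

open Set

namespace Pool.Agent.Lib.MP_245eb3_an.FS

universe u

namespace Sys

variable {L : Type u} [TopologicalSpace L] {S : Sys L}

/-- One step of the fusion, for a finite family. -/
theorem step {a0 x0 : C(L, ℝ)} (E : C(L, ℝ) → C(L, ℝ) → Prop)
    (hopen : ∀ a x a' x', E a x → Cond S a' x' → (∀ t, a t = 0 → a' t = 0) →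
      (∀ t, a t = 0 → x' t = x t) → E a' x')
    (hdense : ∀ a x, Cond S a x → (∀ t, a0 t = 0 → a t = 0) → (∀ t, a0 t = 0 → x t = x0 t) →
      ∃ a' x', Cond S a' x' ∧ (∀ t, a t = 0 → a' t = 0) ∧ (∀ t, a t = 0 → x' t = x t) ∧ E a' x')
    (Y : Finset C(L, ℝ)) {b ξ : C(L, ℝ)} (hb : S.Region b) (hb0 : ∀ t, a0 t = 0 → b t = 0)
    (hξX : ξ ∈ S.X) (hξ : S.Clean ξ) (hξ0 : ∀ t, a0 t = 0 → ξ t = x0 t)
    (hY : ∀ r ∈ Y, r ∈ S.X ∧ (∀ t, b t ≠ 0 → r t = 0) ∧ (∀ t, a0 t = 0 → r t = 0) ∧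
      S.Clean (ξ + r)) :
    ∃ a' γ, S.Region a' ∧ (∀ t, b t = 0 → a' t = 0) ∧ γ ∈ S.X ∧ (∀ t, b t = 0 → γ t = 0) ∧
      S.Clean (ξ + γ) ∧ ∀ r ∈ Y, E a' (ξ + γ + r) := by
  classical
  induction Y using Finset.induction_on with
  | empty =>
    refine ⟨b, 0, hb, fun t ht => ht, S.zero, fun t _ => rfl, ?_, by simp⟩
    rw [add_zero]
    exact hξ
  | insert r Y _ ih =>
    obtain ⟨a', γ, ha', ha'b, hγX, hγ, hγc, hE⟩ := ih fun s hs => hY s (Finset.mem_insert_of_mem hs)
    obtain ⟨hrX, hrb, hr0, hrc⟩ := hY r (Finset.mem_insert_self _ _)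
    have hc1 : S.Clean (ξ + γ + r) := hb.clean_add hξ hγc hrc hγ hrb
    obtain ⟨a'', x', hc', ha'', hx', hE'⟩ := hdense a' (ξ + γ + r)
      ⟨ha', S.add _ (S.add _ hξX _ hγX) _ hrX, hc1⟩ (fun t ht => ha'b t (hb0 t ht))
      (by
        intro t ht
        rw [ContinuousMap.add_apply, ContinuousMap.add_apply, hγ t (hb0 t ht), hr0 t ht, hξ0 t ht]
        ring)
    have hδ : ∀ t, a' t = 0 → (x' - (ξ + γ + r)) t = 0 := by
      intro t ht
      rw [ContinuousMap.sub_apply, hx' t ht, sub_self]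
    have hγ' : ∀ t, b t = 0 → (γ + (x' - (ξ + γ + r))) t = 0 := by
      intro t ht
      rw [ContinuousMap.add_apply, hγ t ht, hδ t (ha'b t ht), add_zero]
    have hc2 : S.Clean (ξ + (γ + (x' - (ξ + γ + r)))) := by
      have h1 : ξ + γ + r + (x' - (ξ + γ + r)) = x' := by abel
      have h2 : ξ + γ + r + -r = ξ + γ := by abel
      have h3 := ha'.clean_add (ξ := ξ + γ + r) (γ := x' - (ξ + γ + r)) (r := -r) hc1
        (by rw [h1]; exact hc'.2.2) (by rw [h2]; exact hγc) hδ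
        (by
          intro t ht
          rw [ContinuousMap.neg_apply, hrb t fun h => ht (ha'b t h), neg_zero])
      have h4 : ξ + (γ + (x' - (ξ + γ + r))) = ξ + γ + r + (x' - (ξ + γ + r)) + -r := by abel
      rw [h4]
      exact h3
    refine ⟨a'', γ + (x' - (ξ + γ + r)), hc'.1, fun t ht => ha'' t (ha'b t ht),
      S.add _ hγX _ (S.sub _ hc'.2.1 _ (S.add _ (S.add _ hξX _ hγX) _ hrX)), hγ', hc2, ?_⟩
    intro s hs
    rw [Finset.mem_insert] at hs
    rcases hs with rfl | hs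
    · have h1 : ξ + (γ + (x' - (ξ + γ + s))) + s = x' := by abel
      rw [h1]
      exact hE'
    · obtain ⟨hsX, hsb, hs0, hsc⟩ := hY s (Finset.mem_insert_of_mem hs)
      refine hopen a' (ξ + γ + s) a'' _ (hE s hs) ⟨hc'.1, ?_, ?_⟩ ha'' ?_
      · exact S.add _ (S.add _ hξX _ (S.add _ hγX _ (S.sub _ hc'.2.1 _
          (S.add _ (S.add _ hξX _ hγX) _ hrX)))) _ hsX
      · exact hb.clean_add hξ hc2 hsc hγ' hsb
      · intro t ht
        have := hδ t ht
        simp only [ContinuousMap.add_apply, ContinuousMap.sub_apply] at this ⊢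
        linarith

/-- A stage of the fusion. -/
structure St (S : Sys L) (a0 x0 : C(L, ℝ)) where
  a : C(L, ℝ)
  ξ : C(L, ℝ)
  Y : Finset C(L, ℝ)
  ha : S.Region a
  haa : ∀ t, a0 t = 0 → a t = 0
  hξX : ξ ∈ S.X
  hξ : S.Clean ξ
  hξ0 : ∀ t, a0 t = 0 → ξ t = x0 t
  hY : ∀ r ∈ Y, r ∈ S.X ∧ (∀ t, a t ≠ 0 → r t = 0) ∧ (∀ t, a0 t = 0 → r t = 0) ∧
      S.Clean (ξ + r)

theorem next {a0 x0 : C(L, ℝ)} (hR0 : S.Region a0) (E : C(L, ℝ) → C(L, ℝ) → Prop)
    (hopen : ∀ a x a' x', E a x → Cond S a' x' → (∀ t, a t = 0 → a' t = 0) →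
      (∀ t, a t = 0 → x' t = x t) → E a' x')
    (hdense : ∀ a x, Cond S a x → (∀ t, a0 t = 0 → a t = 0) → (∀ t, a0 t = 0 → x t = x0 t) →
      ∃ a' x', Cond S a' x' ∧ (∀ t, a t = 0 → a' t = 0) ∧ (∀ t, a t = 0 → x' t = x t) ∧ E a' x')
    (s : St S a0 x0) :
    ∃ (s' : St S a0 x0) (n : ℕ) (a' f : C(L, ℝ)), n ∈ S.ta s.a ∧ (∀ m ∈ S.ta s.a, n ≤ m) ∧
      S.Region a' ∧ (∀ t, s.a t = 0 → a' t = 0) ∧ (∀ t, S.ψ n t ≠ 0 → a' t = 0) ∧
      s'.a = cut a' ∧ (∀ t, s.a t = 0 → s'.ξ t = s.ξ t) ∧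
      (∀ t, S.ψ n t ≠ 0 → s'.ξ t = s.ξ t) ∧
      (∀ t, f t = (1 - 2 * s.ξ (S.p n)) * S.e n t) ∧
      (∀ r ∈ s.Y, r ∈ s'.Y ∧ r + f ∈ s'.Y) ∧ (∀ r ∈ s'.Y, E a' (s'.ξ + r)) := by
  classical
  obtain ⟨n, hn, hmin⟩ : ∃ n, n ∈ S.ta s.a ∧ ∀ m ∈ S.ta s.a, n ≤ m :=
    ⟨sInf (S.ta s.a), Nat.sInf_mem s.ha.inf.nonempty, fun m hm => Nat.sInf_le hm⟩
  have hn0 : n ∈ S.ta a0 := fun h => hn (s.haa _ h)
  -- the flip at `n`
  obtain ⟨f, hfX, hf⟩ : ∃ f ∈ S.X, ∀ t, f t = (1 - 2 * s.ξ (S.p n)) * S.e n t := by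
    rcases (s.hξ.2 n).1 with h | h
    · refine ⟨S.e n, S.eX n, fun t => ?_⟩
      rw [h]
      ring
    · refine ⟨0 - S.e n, S.sub _ S.zero _ (S.eX n), fun t => ?_⟩
      rw [h, ContinuousMap.sub_apply, ContinuousMap.zero_apply]
      ring
  -- the region without `n`
  have hb : S.Region (s.a * (1 - S.χ n)) := by
    refine s.ha.mul (S.sub _ S.one _ (S.χX n)) ?_ ?_ ?_
    · intro t
      rw [ContinuousMap.sub_apply, ContinuousMap.one_apply]
      have := S.χ01 n t
      exact ⟨by linarith, by linarith⟩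
    · intro m _
      by_cases hm : m = n
      · right
        intro t ht
        rw [hm] at ht
        rw [ContinuousMap.sub_apply, ContinuousMap.one_apply, S.ψχ n t ht, sub_self]
      · left
        intro t ht
        have h1 : S.χ m t ≠ 0 := by
          rw [S.ψχ m t (S.eψ' ht)]
          exact one_ne_zero
        rw [ContinuousMap.sub_apply, ContinuousMap.one_apply, S.dis m n t hm h1, sub_zero]
    · have h1 : S.ta s.a \ {n} ⊆ S.ta (s.a * (1 - S.χ n)) := by
        rintro m ⟨hm, hmn⟩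
        have hmn' : m ≠ n := hmn
        show (s.a * (1 - S.χ n)) (S.p m) ≠ 0
        have h1 : S.χ m (S.p m) ≠ 0 := by
          rw [S.ψχ m _ (S.ψp' m)]
          exact one_ne_zero
        rw [ContinuousMap.mul_apply, ContinuousMap.sub_apply, ContinuousMap.one_apply,
          S.dis m n _ hmn' h1, sub_zero, mul_one]
        exact hm
      exact (s.ha.inf.sdiff (finite_singleton n)).mono h1
  have hbn : ∀ t, S.ψ n t ≠ 0 → (s.a * (1 - S.χ n)) t = 0 := by
    intro t ht
    rw [ContinuousMap.mul_apply, ContinuousMap.sub_apply, ContinuousMap.one_apply, S.ψχ n t ht,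
      sub_self, mul_zero]
  have hba : ∀ t, s.a t = 0 → (s.a * (1 - S.χ n)) t = 0 := by
    intro t ht
    rw [ContinuousMap.mul_apply, ht, zero_mul]
  have hfb : ∀ t, (s.a * (1 - S.χ n)) t ≠ 0 → f t = 0 := by
    intro t ht
    rw [hf t]
    by_contra hcon
    have h1 : S.e n t ≠ 0 := fun h => hcon (by rw [h, mul_zero])
    exact ht (hbn t (S.eψ' h1))
  have hf0 : ∀ t, a0 t = 0 → f t = 0 := by
    intro t ht
    rw [hf t]
    by_contra hcon
    have h1 : S.e n t ≠ 0 := fun h => hcon (by rw [h, mul_zero])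
    rw [hR0.one_of_mem hn0 h1] at ht
    exact one_ne_zero ht
  have hY : ∀ r ∈ s.Y ∪ s.Y.image (fun r => r + f), r ∈ S.X ∧
      (∀ t, (s.a * (1 - S.χ n)) t ≠ 0 → r t = 0) ∧ (∀ t, a0 t = 0 → r t = 0) ∧
      S.Clean (s.ξ + r) := by
    intro r hr
    rw [Finset.mem_union, Finset.mem_image] at hr
    rcases hr with hr | ⟨r, hr, rfl⟩
    · obtain ⟨h1, h2, h3, h4⟩ := s.hY r hr
      exact ⟨h1, fun t ht => h2 t fun h => ht (hba t h), h3, h4⟩
    · obtain ⟨h1, h2, h3, h4⟩ := s.hY r hr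
      refine ⟨S.add _ h1 _ hfX, ?_, ?_, ?_, ?_⟩
      · intro t ht
        rw [ContinuousMap.add_apply, hfb t ht, h2 t fun h => ht (hba t h), add_zero]
      · intro t ht
        rw [ContinuousMap.add_apply, h3 t ht, hf0 t ht, add_zero]
      · -- values in `[0, 1]`
        intro t
        by_cases ht : S.e n t = 0
        · have h5 : (s.ξ + (r + f)) t = (s.ξ + r) t := by
            rw [ContinuousMap.add_apply, ContinuousMap.add_apply, ContinuousMap.add_apply, hf t, ht,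
              mul_zero, add_zero]
          rw [h5]
          exact h4.1 t
        · have h6 : s.a t = 1 := s.ha.one_of_mem hn ht
          have h7 : r t = 0 := h2 t (by rw [h6]; exact one_ne_zero)
          have h8 : s.ξ t = s.ξ (S.p n) * S.e n t := (s.hξ.2 n).2 t (S.eψ' ht)
          have h9 := S.e01 n t
          rw [ContinuousMap.add_apply, ContinuousMap.add_apply, hf t, h7, h8]
          rcases (s.hξ.2 n).1 with h | h
          · rw [h]
            constructor <;> linarith [h9.1, h9.2]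
          · rw [h]
            constructor <;> linarith [h9.1, h9.2]
      · intro m
        by_cases hm : m = n
        · subst hm
          have hpa : s.a (S.p m) ≠ 0 := hn
          have h5 : r (S.p m) = 0 := h2 _ hpa
          have h6 : (s.ξ + (r + f)) (S.p m) = 1 - s.ξ (S.p m) := by
            rw [ContinuousMap.add_apply, ContinuousMap.add_apply, hf, h5, S.ep]
            ring
          rw [h6]
          refine ⟨?_, ?_⟩
          · rcases (s.hξ.2 m).1 with h | h
            · right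
              rw [h, sub_zero]
            · left
              rw [h, sub_self]
          · intro t ht
            have g1 := (h4.2 m).2 t ht
            rw [ContinuousMap.add_apply, ContinuousMap.add_apply, h5, add_zero] at g1
            rw [ContinuousMap.add_apply, ContinuousMap.add_apply, hf t]
            linarith
        · have h5 : ∀ t, S.ψ m t ≠ 0 → f t = 0 := by
            intro t ht
            rw [hf t, S.ψe hm ht, mul_zero]
          have h6 : ∀ t, S.ψ m t ≠ 0 → (s.ξ + (r + f)) t = (s.ξ + r) t := by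
            intro t ht
            rw [ContinuousMap.add_apply, ContinuousMap.add_apply, ContinuousMap.add_apply, h5 t ht,
              add_zero]
          rw [h6 _ (S.ψp' m)]
          refine ⟨(h4.2 m).1, ?_⟩
          intro t ht
          rw [h6 t ht]
          exact (h4.2 m).2 t ht
  obtain ⟨a', γ, ha', ha'b, hγX, hγ, hγc, hE⟩ := step E hopen hdense _ hb
    (fun t ht => hba t (s.haa t ht)) s.hξX s.hξ s.hξ0 hY
  have ha'a : ∀ t, s.a t = 0 → a' t = 0 := fun t ht => ha'b t (hba t ht)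
  refine ⟨⟨cut a', s.ξ + γ, s.Y ∪ s.Y.image (fun r => r + f), ha'.cut, ?_,
    S.add _ s.hξX _ hγX, hγc, ?_, ?_⟩, n, a', f, hn, hmin, ha', ha'a,
    fun t ht => ha'b t (hbn t ht), rfl, ?_, ?_, hf, ?_, hE⟩
  · intro t ht
    apply cut_eq_zero
    rw [ha'a t (s.haa t ht)]
    norm_num
  · intro t ht
    rw [ContinuousMap.add_apply, s.hξ0 t ht, hγ t (hba t (s.haa t ht)), add_zero]
  · intro r hr
    obtain ⟨h1, h2, h3, h4⟩ := hY r hr
    refine ⟨h1, ?_, h3, ?_⟩
    · intro t ht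
      apply h2
      intro h
      apply ht
      apply cut_eq_zero
      rw [ha'b t h]
      norm_num
    · exact hb.clean_add s.hξ hγc h4 hγ h2
  · intro t ht
    show (s.ξ + γ) t = s.ξ t
    rw [ContinuousMap.add_apply, hγ t (hba t ht), add_zero]
  · intro t ht
    show (s.ξ + γ) t = s.ξ t
    rw [ContinuousMap.add_apply, hγ t (hbn t ht), add_zero]
  · intro r hr
    exact ⟨Finset.mem_union_left _ hr, Finset.mem_union_right _ (Finset.mem_image_of_mem _ hr)⟩

end Sys

end Pool.Agent.Lib.MP_245eb3_an.FS
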