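import Pool.Agent.Lib.MP_245eb3_an.FS.Fusion

/-!
The limit of the fusion, and the sigma-algebra of decided sets.
-/

set_option autoImplicit false

open Set

namespace Pool.Agent.Lib.MP_245eb3_an.FS

universe u

namespace Sys

variable {L : Type u} [TopologicalSpace L] {S : Sys L}

/-- The fusion lemma. -/
theorem fusion {a0 x0 : C(L, ℝ)} (h0 : Cond S a0 x0) (W : ℕ → Set C(L, ℝ))
    (hdense : ∀ k, ∀ a x, Cond S a x → (∀ t, a0 t = 0 → a t = 0) →
      (∀ t, a0 t = 0 → x t = x0 t) →
      ∃ a' x', Cond S a' x' ∧ (∀ t, a t = 0 → a' t = 0) ∧ (∀ t, a t = 0 → x' t = x t) ∧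
        ∀ z ∈ S.X, S.Clean z → (∀ t, a' t = 0 → z t = x' t) → z ∉ W k) :
    ∃ a' x', Cond S a' x' ∧ (∀ t, a0 t = 0 → a' t = 0) ∧ (∀ t, a0 t = 0 → x' t = x0 t) ∧
      ∀ z ∈ S.X, S.Clean z → (∀ t, a' t = 0 → z t = x' t) → ∀ k, z ∉ W k := by
  classical
  let E : ℕ → C(L, ℝ) → C(L, ℝ) → Prop := fun k a x =>
    ∀ z ∈ S.X, S.Clean z → (∀ t, a t = 0 → z t = x t) → z ∉ W k
  have hopen : ∀ k, ∀ a x a' x', E k a x → Cond S a' x' → (∀ t, a t = 0 → a' t = 0) →
      (∀ t, a t = 0 → x' t = x t) → E k a' x' := by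
    intro k a x a' x' hE _ ha hx z hz hzc hzz
    exact hE z hz hzc fun t ht => (hzz t (ha t ht)).trans (hx t ht)
  let s0 : St S a0 x0 := ⟨a0, x0, {0}, h0.1, fun t ht => ht, h0.2.1, h0.2.2, fun t _ => rfl, by
    intro r hr
    rw [Finset.mem_singleton] at hr
    subst hr
    refine ⟨S.zero, fun t _ => rfl, fun t _ => rfl, ?_⟩
    rw [add_zero]
    exact h0.2.2⟩
  choose nx n b f hn hmin hb hba hbψ hcut hξa hξψ hf hYY hE using
    fun k (s : St S a0 x0) => next h0.1 (E k) (hopen k) (hdense k) s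
  let s : ℕ → St S a0 x0 := fun k => Nat.rec s0 (fun k s => nx k s) k
  let A : ℕ → C(L, ℝ) := fun k => (s k).a
  let Ξ : ℕ → C(L, ℝ) := fun k => (s k).ξ
  let N : ℕ → ℕ := fun k => n k (s k)
  let B : ℕ → C(L, ℝ) := fun k => b k (s k)
  let F : ℕ → C(L, ℝ) := fun k => f k (s k)
  have fN : ∀ k, N k ∈ S.ta (A k) := fun k => hn k (s k)
  have fmin : ∀ k, ∀ m ∈ S.ta (A k), N k ≤ m := fun k => hmin k (s k)
  have fB : ∀ k, S.Region (B k) := fun k => hb k (s k)
  have fBA : ∀ k t, A k t = 0 → B k t = 0 := fun k => hba k (s k)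
  have fBψ : ∀ k t, S.ψ (N k) t ≠ 0 → B k t = 0 := fun k => hbψ k (s k)
  have fcut : ∀ k, A (k + 1) = cut (B k) := fun k => hcut k (s k)
  have fΞ : ∀ k t, A k t = 0 → Ξ (k + 1) t = Ξ k t := fun k => hξa k (s k)
  have fΞψ : ∀ k t, S.ψ (N k) t ≠ 0 → Ξ (k + 1) t = Ξ k t := fun k => hξψ k (s k)
  have fF : ∀ k t, F k t = (1 - 2 * Ξ k (S.p (N k))) * S.e (N k) t := fun k => hf k (s k)
  have fY : ∀ k, ∀ r ∈ (s k).Y, r ∈ (s (k + 1)).Y ∧ r + F k ∈ (s (k + 1)).Y := fun k =>
    hYY k (s k)
  have fE : ∀ k, ∀ r ∈ (s (k + 1)).Y, E k (B k) (Ξ (k + 1) + r) := fun k => hE k (s k)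
  have fA : ∀ k, S.Region (A k) := fun k => (s k).ha
  have fΞX : ∀ k, Ξ k ∈ S.X := fun k => (s k).hξX
  have fΞc : ∀ k, S.Clean (Ξ k) := fun k => (s k).hξ
  -- monotonicity
  have hA1 : ∀ k t, B k t = 0 → A (k + 1) t = 0 := by
    intro k t ht
    rw [fcut k]
    apply cut_eq_zero
    rw [ht]
    norm_num
  have hAs : ∀ k t, A k t = 0 → A (k + 1) t = 0 := fun k t ht => hA1 k t (fBA k t ht)
  have hAm : ∀ i j t, i ≤ j → A i t = 0 → A j t = 0 := by
    intro i j t hij h
    induction j, hij using Nat.le_induction with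
    | base => exact h
    | succ j _ ih => exact hAs j t ih
  have hΞm : ∀ i j t, i ≤ j → A i t = 0 → Ξ j t = Ξ i t := by
    intro i j t hij h
    induction j, hij using Nat.le_induction with
    | base => rfl
    | succ j hj ih => rw [fΞ j t (hAm i j t hj h), ih]
  have hA2 : ∀ k t, B k t < 1 / 2 → A (k + 1) t = 0 := by
    intro k t ht
    rw [fcut k]
    exact cut_eq_zero ht.le
  have hBm : ∀ i j t, i ≤ j → B i t = 0 → B j t = 0 := by
    intro i j t hij h
    rcases Nat.eq_or_lt_of_le hij with rfl | hlt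
    · exact h
    · exact fBA j t (hAm (i + 1) j t hlt (hA1 i t h))
  have hta : ∀ k m, m ∈ S.ta (A (k + 1)) → m ∈ S.ta (A k) := fun k m hm h => hm (hAs k _ h)
  have hta' : ∀ i j m, i ≤ j → m ∈ S.ta (A j) → m ∈ S.ta (A i) := fun i j m hij hm h =>
    hm (hAm i j _ hij h)
  have hNs : StrictMono N := by
    apply strictMono_nat_of_lt_succ
    intro k
    have h1 : N k ≤ N (k + 1) := fmin k _ (hta k _ (fN (k + 1)))
    rcases Nat.eq_or_lt_of_le h1 with h2 | h2
    · exfalso
      have h3 : A (k + 1) (S.p (N (k + 1))) ≠ 0 := fN (k + 1)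
      rw [← h2] at h3
      exact h3 (hA1 k _ (fBψ k _ (S.ψp' _)))
    · exact h2
  -- every index leaves the regions
  have hleave : ∀ m, ∃ k, ∀ t, S.ψ m t ≠ 0 → B k t = 0 := by
    intro m
    by_contra hcon
    push Not at hcon
    have h1 : m ∈ S.ta (A (m + 1 + 1)) := by
      obtain ⟨t, ht, hBt⟩ := hcon (m + 1)
      have h2 : m ∈ S.ta (B (m + 1)) := by
        by_contra h3
        exact hBt ((fB (m + 1)).zero_of_notMem h3 ht)
      show A (m + 1 + 1) (S.p m) ≠ 0
      rw [fcut (m + 1), cut_eq_one ((fB (m + 1)).p_eq_one h2)]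
      exact one_ne_zero
    have h2 : N (m + 1) ≤ m := fmin (m + 1) m (hta (m + 1) m h1)
    have h3 : m + 1 ≤ N (m + 1) := hNs.le_apply
    omega
  -- the limit of the functions
  have hΞc : ∀ k l t, cocut (B k) t ≠ 0 → cocut (B l) t ≠ 0 → Ξ (k + 1) t = Ξ (l + 1) t := by
    have h1 : ∀ k l t, k ≤ l → cocut (B k) t ≠ 0 → Ξ (k + 1) t = Ξ (l + 1) t := by
      intro k l t hkl hk
      have h2 := hA2 k t (cocut_ne_zero.mp hk)
      exact (hΞm (k + 1) (l + 1) t (by omega) h2).symm
    intro k l t hk hl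
    rcases le_total k l with h | h
    · exact h1 k l t h hk
    · exact (h1 l k t h hl).symm
  obtain ⟨x, hx, hx01, hxΞ⟩ := S.interp (fun k => cocut (B k)) (fun k => Ξ (k + 1))
    (fun k => S.cocut_mem (fB k).mem) (fun k => fΞX (k + 1)) (fun k => (fΞc (k + 1)).1) hΞc
  have hxB : ∀ k t, B k t < 1 / 2 → x t = Ξ (k + 1) t := fun k t ht =>
    hxΞ k t (cocut_ne_zero.mpr ht)
  have hxB0 : ∀ k t, B k t = 0 → x t = Ξ (k + 1) t := fun k t ht => hxB k t (by
    rw [ht]
    norm_num)
  have hxc : S.Clean x := by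
    refine ⟨hx01, ?_⟩
    intro m
    obtain ⟨k, hk⟩ := hleave m
    rw [hxB0 k _ (hk _ (S.ψp' m))]
    refine ⟨((fΞc (k + 1)).2 m).1, ?_⟩
    intro t ht
    rw [hxB0 k t (hk t ht)]
    exact ((fΞc (k + 1)).2 m).2 t ht
  -- the limit region
  let P : ℕ → C(L, ℝ) := fun k => ∏ j ∈ Finset.range (k + 1), (1 - S.ψ (N j))
  have hPX : ∀ k, P k ∈ S.X := fun k =>
    Finset.prod_induction _ (fun g => g ∈ S.X) (fun f g hf hg => S.mul f hf g hg) S.one
      fun j _ => S.sub _ S.one _ (S.ψX _)
  have hP : ∀ k t, P k t = ∏ j ∈ Finset.range (k + 1), (1 - S.ψ (N j) t) := by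
    intro k t
    simp only [P, ContinuousMap.coe_prod, Finset.prod_apply, ContinuousMap.sub_apply,
      ContinuousMap.one_apply]
  have hP0 : ∀ k t, P k t ≠ 0 ↔ ∀ j, j ≤ k → S.ψ (N j) t ≠ 1 := by
    intro k t
    rw [hP, Finset.prod_ne_zero_iff]
    constructor
    · intro h j hj h1
      exact h j (Finset.mem_range.mpr (by omega)) (by rw [h1, sub_self])
    · intro h j hj h1
      rw [Finset.mem_range] at hj
      exact h j (by omega) (by linarith)
  obtain ⟨g, hg, hg01, hgw⟩ := S.interp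
    (fun k => if k % 2 = 0 then S.e (N (k / 2)) else cocut (B (k / 2)) * P (k / 2))
    (fun k => if k % 2 = 0 then 1 else 0)
    (by
      intro k
      split_ifs
      · exact S.eX _
      · exact S.mul _ (S.cocut_mem (fB _).mem) _ (hPX _))
    (by
      intro k
      split_ifs
      · exact S.one
      · exact S.zero)
    (by
      intro k t
      split_ifs
      · rw [ContinuousMap.one_apply]
        norm_num
      · rw [ContinuousMap.zero_apply]
        norm_num)
    (by
      have key : ∀ i k t, S.e (N i) t ≠ 0 → (cocut (B k) * P k) t ≠ 0 → False := by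
        intro i k t hi hk
        rw [ContinuousMap.mul_apply] at hk
        have h1 := left_ne_zero_of_mul hk
        have h2 := right_ne_zero_of_mul hk
        rcases le_or_gt i k with h | h
        · exact (hP0 k t).mp h2 i h (S.eψ _ _ hi)
        · have h3 : N i ∈ S.ta (B k) := by
            intro h4
            exact fN i (hAm (k + 1) i _ h (hA1 k _ h4))
          exact h1 (cocut_eq_zero ((fB k).one_of_mem h3 hi))
      intro k l t hk hl
      by_cases hk2 : k % 2 = 0
      · by_cases hl2 : l % 2 = 0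
        · rw [if_pos hk2, if_pos hl2]
        · rw [if_pos hk2] at hk
          rw [if_neg hl2] at hl
          exact (key _ _ t hk hl).elim
      · by_cases hl2 : l % 2 = 0
        · rw [if_neg hk2] at hk
          rw [if_pos hl2] at hl
          exact (key _ _ t hl hk).elim
        · rw [if_neg hk2, if_neg hl2])
  have hge : ∀ i t, S.e (N i) t ≠ 0 → g t = 1 := by
    intro i t ht
    have h1 : (2 * i) % 2 = 0 := by omega
    have h2 : 2 * i / 2 = i := by omega
    have := hgw (2 * i) t (by rw [if_pos h1, h2]; exact ht)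
    rw [this, if_pos h1, ContinuousMap.one_apply]
  have hgP : ∀ k t, (cocut (B k) * P k) t ≠ 0 → g t = 0 := by
    intro k t ht
    have h1 : ¬ ((2 * k + 1) % 2 = 0) := by omega
    have h2 : (2 * k + 1) / 2 = k := by omega
    have := hgw (2 * k + 1) t (by rw [if_neg h1, h2]; exact ht)
    rw [this, if_neg h1, ContinuousMap.zero_apply]
  have hN0 : ∀ i, N i ∈ S.ta a0 := fun i => hta' 0 i _ (Nat.zero_le i) (fN i)
  have hag : S.Region (a0 * g) := by
    refine h0.1.mul hg hg01 ?_ ?_
    · intro m _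
      by_cases hm : ∃ i, N i = m
      · obtain ⟨i, rfl⟩ := hm
        exact Or.inl fun t ht => hge i t ht
      · push Not at hm
        right
        intro t ht
        obtain ⟨k, hk⟩ := hleave m
        apply hgP k
        rw [ContinuousMap.mul_apply]
        apply mul_ne_zero
        · rw [cocut_eq_one (hk t ht)]
          exact one_ne_zero
        · rw [hP0]
          intro j _ h1
          rw [S.ψψ (hm j).symm ht] at h1
          exact zero_ne_one h1
    · refine (infinite_range_of_injective hNs.injective).mono ?_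
      rintro _ ⟨i, rfl⟩
      show (a0 * g) (S.p (N i)) ≠ 0
      rw [ContinuousMap.mul_apply, h0.1.p_eq_one (hN0 i), hge i _ (S.ep' _), mul_one]
      exact one_ne_zero
  refine ⟨a0 * g, x, ⟨hag, hx, hxc⟩, ?_, ?_, ?_⟩
  · intro t ht
    rw [ContinuousMap.mul_apply, ht, zero_mul]
  · intro t ht
    rw [hxB0 0 t (fBA 0 t ht), fΞ 0 t ht]
    rfl
  · intro z hz hzc hzz k
    -- the flips
    let r : ℕ → C(L, ℝ) := fun k => Nat.rec 0
      (fun k r => if z (S.p (N k)) = x (S.p (N k)) then r else r + F k) k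
    have hr1 : ∀ k, r (k + 1) = if z (S.p (N k)) = x (S.p (N k)) then r k else r k + F k :=
      fun k => rfl
    have hrY : ∀ k, r k ∈ (s k).Y := by
      intro k
      induction k with
      | zero => exact Finset.mem_singleton_self _
      | succ k ih =>
        rw [hr1 k]
        split_ifs
        · exact (fY k _ ih).1
        · exact (fY k _ ih).2
    have hxN : ∀ k, x (S.p (N k)) = Ξ k (S.p (N k)) := by
      intro k
      rw [hxB0 k _ (fBψ k _ (S.ψp' _)), fΞψ k _ (S.ψp' _)]
    have hrs : ∀ k t, r (k + 1) t = r k t + (z (S.p (N k)) - x (S.p (N k))) * S.e (N k) t := by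
      intro k t
      rw [hr1 k]
      split_ifs with h
      · rw [h]
        ring
      · rw [ContinuousMap.add_apply, fF k t, ← hxN k]
        rcases (hzc.2 (N k)).1 with h1 | h1
        · rcases (hxc.2 (N k)).1 with h2 | h2
          · exact absurd (h1.trans h2.symm) h
          · rw [h1, h2]
            ring
        · rcases (hxc.2 (N k)).1 with h2 | h2
          · rw [h1, h2]
            ring
          · exact absurd (h1.trans h2.symm) h
    have hra : ∀ k t, (∀ j, j < k → S.ψ (N j) t = 0) → r k t = 0 := by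
      intro k t h
      induction k with
      | zero => rfl
      | succ k ih =>
        rw [hrs k t, ih fun j hj => h j (by omega)]
        have h1 : S.e (N k) t = 0 := by
          by_contra hcon
          exact S.eψ' hcon (h k (Nat.lt_succ_self k))
        rw [h1]
        ring
    have hrb : ∀ k j t, j < k → S.ψ (N j) t ≠ 0 →
        r k t = (z (S.p (N j)) - x (S.p (N j))) * S.e (N j) t := by
      intro k j t hj ht
      induction k with
      | zero => omega
      | succ k ih =>
        rw [hrs k t]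
        rcases Nat.lt_or_ge j k with h | h
        · rw [ih h, S.ψe (fun h1 => (Nat.ne_of_lt h) (hNs.injective h1)) ht]
          ring
        · obtain rfl : j = k := by omega
          rw [hra j t fun i hi => S.ψψ (fun h1 => (Nat.ne_of_lt hi) (hNs.injective h1).symm) ht]
          ring
    refine fE k _ (hrY (k + 1)) z hz hzc ?_
    intro t ht
    rw [ContinuousMap.add_apply, ← hxB0 k t ht]
    by_cases hj : ∃ j, j < k + 1 ∧ S.ψ (N j) t ≠ 0
    · obtain ⟨j, hjk, hjt⟩ := hj
      rw [hrb (k + 1) j t hjk hjt, (hzc.2 (N j)).2 t hjt, (hxc.2 (N j)).2 t hjt]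
      ring
    · push Not at hj
      rw [hra (k + 1) t hj, add_zero]
      apply hzz
      rw [ContinuousMap.mul_apply, hgP k t, mul_zero]
      rw [ContinuousMap.mul_apply]
      apply mul_ne_zero
      · rw [cocut_eq_one ht]
        exact one_ne_zero
      · rw [hP0]
        intro j hjk h1
        rw [hj j (by omega)] at h1
        exact zero_ne_one h1

/-- The set `W` is decided. -/
def Decided (S : Sys L) (W : Set C(L, ℝ)) : Prop :=
  ∀ a x, Cond S a x → ∃ a' x', Cond S a' x' ∧ (∀ t, a t = 0 → a' t = 0) ∧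
    (∀ t, a t = 0 → x' t = x t) ∧
    ((∀ z ∈ S.X, S.Clean z → (∀ t, a' t = 0 → z t = x' t) → z ∈ W) ∨
      (∀ z ∈ S.X, S.Clean z → (∀ t, a' t = 0 → z t = x' t) → z ∉ W))

/-- Countable unions of decided sets are decided. -/
theorem Decided.iUnion {W : ℕ → Set C(L, ℝ)} (hW : ∀ k, Decided S (W k)) :
    Decided S (⋃ k, W k) := by
  intro a x hc
  by_cases h : ∃ k a' x', Cond S a' x' ∧ (∀ t, a t = 0 → a' t = 0) ∧
      (∀ t, a t = 0 → x' t = x t) ∧ ∀ z ∈ S.X, S.Clean z → (∀ t, a' t = 0 → z t = x' t) → z ∈ W k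
  · obtain ⟨k, a', x', h1, h2, h3, h4⟩ := h
    exact ⟨a', x', h1, h2, h3, Or.inl fun z hz hzc hzz => mem_iUnion.mpr ⟨k, h4 z hz hzc hzz⟩⟩
  · push Not at h
    obtain ⟨a', x', h1, h2, h3, h4⟩ := fusion hc W (by
      intro k b y hb hba hy
      obtain ⟨b', y', g1, g2, g3, g4⟩ := hW k b y hb
      refine ⟨b', y', g1, g2, g3, ?_⟩
      rcases g4 with g4 | g4
      · exfalso
        obtain ⟨z, hz, hzc, hzz, hzW⟩ := h k b' y' g1 (fun t ht => g2 t (hba t ht))
          (fun t ht => (g3 t (hba t ht)).trans (hy t ht))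
        exact hzW (g4 z hz hzc hzz)
      · exact g4)
    refine ⟨a', x', h1, h2, h3, Or.inr ?_⟩
    intro z hz hzc hzz hmem
    rw [mem_iUnion] at hmem
    obtain ⟨k, hk⟩ := hmem
    exact h4 z hz hzc hzz k hk

theorem Decided.compl {W : Set C(L, ℝ)} (hW : Decided S W) : Decided S Wᶜ := by
  intro a x hc
  obtain ⟨a', x', h1, h2, h3, h4⟩ := hW a x hc
  refine ⟨a', x', h1, h2, h3, ?_⟩
  rcases h4 with h4 | h4
  · exact Or.inr fun z hz hzc hzz h => h (h4 z hz hzc hzz)
  · exact Or.inl fun z hz hzc hzz => h4 z hz hzc hzz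

theorem Decided.empty : Decided S (∅ : Set C(L, ℝ)) := by
  intro a x hc
  exact ⟨a, x, hc, fun t ht => ht, fun t _ => rfl, Or.inr fun z _ _ _ h => h⟩

/-- The sigma-algebra of decided sets. -/
@[reducible] def decidedSpace (S : Sys L) : MeasurableSpace C(L, ℝ) where
  MeasurableSet' := Decided S
  measurableSet_empty := Decided.empty
  measurableSet_compl := fun _ h => h.compl
  measurableSet_iUnion := fun _ h => Decided.iUnion h

end Sys

end Pool.Agent.Lib.MP_245eb3_an.FS
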