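import Mathlib

/-!
Systems of disjoint functions in a family of continuous functions which is closed under countable
interpolation, clean functions, regions.
-/

set_option autoImplicit false

open Set

namespace Pool.Agent.Lib.MP_245eb3_an.FS

universe u

/-- A family `X` of continuous functions, closed under some operations and under countable
interpolation, together with three disjoint sequences `e n ≤ ψ n ≤ χ n` of bump functions. -/
structure Sys (L : Type u) [TopologicalSpace L] where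
  X : Set C(L, ℝ)
  e : ℕ → C(L, ℝ)
  ψ : ℕ → C(L, ℝ)
  χ : ℕ → C(L, ℝ)
  p : ℕ → L
  one : (1 : C(L, ℝ)) ∈ X
  add : ∀ f ∈ X, ∀ g ∈ X, f + g ∈ X
  sub : ∀ f ∈ X, ∀ g ∈ X, f - g ∈ X
  mul : ∀ f ∈ X, ∀ g ∈ X, f * g ∈ X
  pos : ∀ f ∈ X, f ⊔ 0 ∈ X
  interp : ∀ w h : ℕ → C(L, ℝ), (∀ k, w k ∈ X) → (∀ k, h k ∈ X) →
    (∀ k t, 0 ≤ h k t ∧ h k t ≤ 1) → (∀ k l t, w k t ≠ 0 → w l t ≠ 0 → h k t = h l t) →
    ∃ g ∈ X, (∀ t, 0 ≤ g t ∧ g t ≤ 1) ∧ ∀ k t, w k t ≠ 0 → g t = h k t
  eX : ∀ n, e n ∈ X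
  ψX : ∀ n, ψ n ∈ X
  χX : ∀ n, χ n ∈ X
  e01 : ∀ n t, 0 ≤ e n t ∧ e n t ≤ 1
  ψ01 : ∀ n t, 0 ≤ ψ n t ∧ ψ n t ≤ 1
  χ01 : ∀ n t, 0 ≤ χ n t ∧ χ n t ≤ 1
  ep : ∀ n, e n (p n) = 1
  eψ : ∀ n t, e n t ≠ 0 → ψ n t = 1
  ψχ : ∀ n t, ψ n t ≠ 0 → χ n t = 1
  dis : ∀ m n t, m ≠ n → χ m t ≠ 0 → χ n t = 0

namespace Sys

variable {L : Type u} [TopologicalSpace L] (S : Sys L)

theorem zero : (0 : C(L, ℝ)) ∈ S.X := by
  have := S.sub 1 S.one 1 S.one
  rwa [sub_self] at this

theorem ψp (n : ℕ) : S.ψ n (S.p n) = 1 := S.eψ n _ (by rw [S.ep]; exact one_ne_zero)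

theorem ψp' (n : ℕ) : S.ψ n (S.p n) ≠ 0 := by
  rw [S.ψp]
  exact one_ne_zero

theorem ep' (n : ℕ) : S.e n (S.p n) ≠ 0 := by
  rw [S.ep]
  exact one_ne_zero

theorem eψ' {n : ℕ} {t : L} (h : S.e n t ≠ 0) : S.ψ n t ≠ 0 := by
  rw [S.eψ n t h]
  exact one_ne_zero

theorem χψ {m n : ℕ} {t : L} (hmn : m ≠ n) (h : S.χ m t ≠ 0) : S.ψ n t = 0 := by
  by_contra hcon
  have h1 := S.ψχ n t hcon
  rw [S.dis m n t hmn h] at h1
  exact zero_ne_one h1

theorem ψψ {m n : ℕ} {t : L} (hmn : m ≠ n) (h : S.ψ m t ≠ 0) : S.ψ n t = 0 := by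
  apply S.χψ hmn
  rw [S.ψχ m t h]
  exact one_ne_zero

theorem ψe {m n : ℕ} {t : L} (hmn : m ≠ n) (h : S.ψ m t ≠ 0) : S.e n t = 0 := by
  by_contra hcon
  exact S.eψ' hcon (S.ψψ hmn h)

/-- A function with values in `[0, 1]` which, on the support of `ψ n`, is `0` or `e n`. -/
def Clean (z : C(L, ℝ)) : Prop :=
  (∀ t, 0 ≤ z t ∧ z t ≤ 1) ∧ ∀ n, (z (S.p n) = 0 ∨ z (S.p n) = 1) ∧
    ∀ t, S.ψ n t ≠ 0 → z t = z (S.p n) * S.e n t

/-- The trace of a region. -/
def ta (a : C(L, ℝ)) : Set ℕ := {n | a (S.p n) ≠ 0}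

/-- A region: a function in `X` with values in `[0, 1]` which, for each `n`, is `1` on the support
of `e n` or `0` on the support of `ψ n`, the first for infinitely many `n`. -/
structure Region (a : C(L, ℝ)) : Prop where
  mem : a ∈ S.X
  bd : ∀ t, 0 ≤ a t ∧ a t ≤ 1
  alt : ∀ n, (∀ t, S.e n t ≠ 0 → a t = 1) ∨ (∀ t, S.ψ n t ≠ 0 → a t = 0)
  inf : (S.ta a).Infinite

variable {S}

theorem Region.one_of_mem {a : C(L, ℝ)} (ha : S.Region a) {n : ℕ} (hn : n ∈ S.ta a) {t : L}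
    (ht : S.e n t ≠ 0) : a t = 1 := by
  rcases ha.alt n with h | h
  · exact h t ht
  · exact absurd (h _ (S.ψp' n)) hn

theorem Region.p_eq_one {a : C(L, ℝ)} (ha : S.Region a) {n : ℕ} (hn : n ∈ S.ta a) :
    a (S.p n) = 1 := ha.one_of_mem hn (S.ep' n)

theorem Region.zero_of_notMem {a : C(L, ℝ)} (ha : S.Region a) {n : ℕ} (hn : n ∉ S.ta a) {t : L}
    (ht : S.ψ n t ≠ 0) : a t = 0 := by
  rcases ha.alt n with h | h
  · exfalso
    apply hn
    show a (S.p n) ≠ 0
    rw [h _ (S.ep' n)]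
    exact one_ne_zero
  · exact h t ht

/-- A condition. -/
def Cond (S : Sys L) (a x : C(L, ℝ)) : Prop := S.Region a ∧ x ∈ S.X ∧ S.Clean x

/-- The product of a region and of a suitable function is a region. -/
theorem Region.mul {a g : C(L, ℝ)} (ha : S.Region a) (hg : g ∈ S.X)
    (hg01 : ∀ t, 0 ≤ g t ∧ g t ≤ 1)
    (halt : ∀ n ∈ S.ta a, (∀ t, S.e n t ≠ 0 → g t = 1) ∨ (∀ t, S.ψ n t ≠ 0 → g t = 0))
    (hinf : (S.ta (a * g)).Infinite) : S.Region (a * g) := by
  refine ⟨S.mul _ ha.mem _ hg, ?_, ?_, hinf⟩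
  · intro t
    rw [ContinuousMap.mul_apply]
    exact ⟨mul_nonneg (ha.bd t).1 (hg01 t).1, mul_le_one₀ (ha.bd t).2 (hg01 t).1 (hg01 t).2⟩
  · intro n
    by_cases hn : n ∈ S.ta a
    · rcases halt n hn with h | h
      · left
        intro t ht
        rw [ContinuousMap.mul_apply, h t ht, ha.one_of_mem hn ht, mul_one]
      · right
        intro t ht
        rw [ContinuousMap.mul_apply, h t ht, mul_zero]
    · right
      intro t ht
      rw [ContinuousMap.mul_apply, ha.zero_of_notMem hn ht, zero_mul]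

/-- The function `(2 a - 1)⁺`. -/
noncomputable def cut (a : C(L, ℝ)) : C(L, ℝ) := (a + a - 1) ⊔ 0

/-- The function `(1 - 2 a)⁺`. -/
noncomputable def cocut (a : C(L, ℝ)) : C(L, ℝ) := (1 - (a + a)) ⊔ 0

theorem cut_apply (a : C(L, ℝ)) (t : L) : cut a t = max (2 * a t - 1) 0 := by
  unfold cut
  rw [ContinuousMap.sup_apply, ContinuousMap.sub_apply, ContinuousMap.add_apply,
    ContinuousMap.one_apply, ContinuousMap.zero_apply, two_mul]

theorem cocut_apply (a : C(L, ℝ)) (t : L) : cocut a t = max (1 - 2 * a t) 0 := by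
  unfold cocut
  rw [ContinuousMap.sup_apply, ContinuousMap.sub_apply, ContinuousMap.add_apply,
    ContinuousMap.one_apply, ContinuousMap.zero_apply, two_mul]

variable (S) in
theorem cut_mem {a : C(L, ℝ)} (ha : a ∈ S.X) : cut a ∈ S.X :=
  S.pos _ (S.sub _ (S.add _ ha _ ha) _ S.one)

variable (S) in
theorem cocut_mem {a : C(L, ℝ)} (ha : a ∈ S.X) : cocut a ∈ S.X :=
  S.pos _ (S.sub _ S.one _ (S.add _ ha _ ha))

theorem cut_eq_zero {a : C(L, ℝ)} {t : L} (h : a t ≤ 1 / 2) : cut a t = 0 := by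
  rw [cut_apply]
  exact max_eq_right (by linarith)

theorem cut_eq_one {a : C(L, ℝ)} {t : L} (h : a t = 1) : cut a t = 1 := by
  rw [cut_apply, h]
  norm_num

theorem cocut_ne_zero {a : C(L, ℝ)} {t : L} : cocut a t ≠ 0 ↔ a t < 1 / 2 := by
  rw [cocut_apply]
  constructor
  · intro h
    by_contra hcon
    exact h (max_eq_right (by linarith))
  · intro h
    have : 0 < 1 - 2 * a t := by linarith
    exact (lt_max_of_lt_left this).ne'

theorem cocut_eq_one {a : C(L, ℝ)} {t : L} (h : a t = 0) : cocut a t = 1 := by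
  rw [cocut_apply, h]
  norm_num

theorem cocut_eq_zero {a : C(L, ℝ)} {t : L} (h : a t = 1) : cocut a t = 0 := by
  rw [cocut_apply, h]
  norm_num

theorem cut_bd {a : C(L, ℝ)} (ha : ∀ t, 0 ≤ a t ∧ a t ≤ 1) (t : L) :
    0 ≤ cut a t ∧ cut a t ≤ 1 := by
  rw [cut_apply]
  have := ha t
  exact ⟨le_max_right _ _, max_le (by linarith) zero_le_one⟩

theorem cocut_bd {a : C(L, ℝ)} (ha : ∀ t, 0 ≤ a t ∧ a t ≤ 1) (t : L) :
    0 ≤ cocut a t ∧ cocut a t ≤ 1 := by
  rw [cocut_apply]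
  have := ha t
  exact ⟨le_max_right _ _, max_le (by linarith) zero_le_one⟩

theorem Region.cut {a : C(L, ℝ)} (ha : S.Region a) : S.Region (cut a) := by
  refine ⟨S.cut_mem ha.mem, cut_bd ha.bd, ?_, ?_⟩
  · intro n
    rcases ha.alt n with h | h
    · left
      intro t ht
      exact cut_eq_one (h t ht)
    · right
      intro t ht
      apply cut_eq_zero
      rw [h t ht]
      norm_num
  · refine ha.inf.mono ?_
    intro n hn
    show Sys.cut a (S.p n) ≠ 0
    rw [cut_eq_one (ha.p_eq_one hn)]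
    exact one_ne_zero

variable (S) in
/-- A function in `X` which is `1` on the supports of the `ψ n`, `n ∈ A`, and `0` on the supports of
the other `ψ n`. -/
theorem exists_sel (A : Set ℕ) : ∃ g ∈ S.X, (∀ t, 0 ≤ g t ∧ g t ≤ 1) ∧
    (∀ n ∈ A, ∀ t, S.ψ n t ≠ 0 → g t = 1) ∧ (∀ n, n ∉ A → ∀ t, S.ψ n t ≠ 0 → g t = 0) := by
  classical
  obtain ⟨g, hg, hg01, h⟩ := S.interp S.ψ (fun n => if n ∈ A then 1 else 0) S.ψX
    (by
      intro n
      split_ifs
      · exact S.one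
      · exact S.zero)
    (by
      intro n t
      split_ifs
      · rw [ContinuousMap.one_apply]
        norm_num
      · rw [ContinuousMap.zero_apply]
        norm_num)
    (by
      intro k l t hk hl
      by_cases hkl : k = l
      · rw [hkl]
      · exact absurd (S.ψψ hkl hk) hl)
  refine ⟨g, hg, hg01, ?_, ?_⟩
  · intro n hn t ht
    rw [h n t ht, if_pos hn, ContinuousMap.one_apply]
  · intro n hn t ht
    rw [h n t ht, if_neg hn, ContinuousMap.zero_apply]

/-- Splitting a region. -/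
theorem Region.split {a : C(L, ℝ)} (ha : S.Region a) :
    ∃ a1 a2, S.Region a1 ∧ S.Region a2 ∧ (∀ t, a t = 0 → a1 t = 0) ∧ (∀ t, a t = 0 → a2 t = 0) ∧
      ∀ t, a1 t = 0 ∨ a2 t = 0 := by
  let f := ha.inf.natEmbedding
  have hf : ∀ i, (f i : ℕ) ∈ S.ta a := fun i => (f i).2
  have hfi : ∀ i j, (f i : ℕ) = f j → i = j := fun i j h => f.injective (Subtype.ext h)
  obtain ⟨g, hg, hg01, h1, h2⟩ := S.exists_sel (range fun i => (f (2 * i) : ℕ))
  refine ⟨a * Sys.cut g, a * cocut g, ?_, ?_, ?_, ?_, ?_⟩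
  · refine ha.mul (S.cut_mem hg) (cut_bd hg01) ?_ ?_
    · intro n _
      by_cases hn' : n ∈ range fun i => (f (2 * i) : ℕ)
      · left
        intro t ht
        exact cut_eq_one (h1 n hn' t (S.eψ' ht))
      · right
        intro t ht
        apply cut_eq_zero
        rw [h2 n hn' t ht]
        norm_num
    · have h4 : (fun i => (f (2 * i) : ℕ)) '' univ ⊆ S.ta (a * Sys.cut g) := by
        rintro _ ⟨i, -, rfl⟩
        show (a * Sys.cut g) (S.p (f (2 * i) : ℕ)) ≠ 0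
        rw [ContinuousMap.mul_apply, ha.p_eq_one (hf _), cut_eq_one (h1 _ ⟨i, rfl⟩ _ (S.ψp' _)),
          mul_one]
        exact one_ne_zero
      refine Set.Infinite.mono h4 (infinite_univ.image ?_)
      intro i _ j _ h
      have := hfi _ _ h
      omega
  · refine ha.mul (S.cocut_mem hg) (cocut_bd hg01) ?_ ?_
    · intro n _
      by_cases hn' : n ∈ range fun i => (f (2 * i) : ℕ)
      · right
        intro t ht
        exact cocut_eq_zero (h1 n hn' t ht)
      · left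
        intro t ht
        exact cocut_eq_one (h2 n hn' t (S.eψ' ht))
    · have h4 : (fun i => (f (2 * i + 1) : ℕ)) '' univ ⊆ S.ta (a * cocut g) := by
        rintro _ ⟨i, -, rfl⟩
        show (a * cocut g) (S.p (f (2 * i + 1) : ℕ)) ≠ 0
        have h5 : (f (2 * i + 1) : ℕ) ∉ range fun i => (f (2 * i) : ℕ) := by
          rintro ⟨j, hj⟩
          have := hfi _ _ hj
          omega
        rw [ContinuousMap.mul_apply, ha.p_eq_one (hf _), cocut_eq_one (h2 _ h5 _ (S.ψp' _)),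
          mul_one]
        exact one_ne_zero
      refine Set.Infinite.mono h4 (infinite_univ.image ?_)
      intro i _ j _ h
      have := hfi _ _ h
      omega
  · intro t ht
    rw [ContinuousMap.mul_apply, ht, zero_mul]
  · intro t ht
    rw [ContinuousMap.mul_apply, ht, zero_mul]
  · intro t
    rcases le_or_gt (g t) (1 / 2) with h | h
    · left
      rw [ContinuousMap.mul_apply, cut_eq_zero h, mul_zero]
    · right
      have : cocut g t = 0 := by
        by_contra hcon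
        have := cocut_ne_zero.mp hcon
        linarith
      rw [ContinuousMap.mul_apply, this, mul_zero]

variable (S) in
/-- The constant function `1` is a region. -/
theorem region_one : S.Region 1 := by
  refine ⟨S.one, ?_, ?_, ?_⟩
  · intro t
    rw [ContinuousMap.one_apply]
    norm_num
  · intro n
    left
    intro t _
    exact ContinuousMap.one_apply t
  · have : S.ta 1 = univ := by
      ext n
      simp [ta]
    rw [this]
    exact infinite_univ

section Small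

variable [CompactSpace L]

/-- A functional is small on some subregion. -/
theorem Region.small {a : C(L, ℝ)} (ha : S.Region a) (φ : C(L, ℝ) →L[ℝ] ℝ) {ε : ℝ} (hε : 0 < ε) :
    ∃ a', S.Region a' ∧ (∀ t, a t = 0 → a' t = 0) ∧
      ∀ g : C(L, ℝ), ‖g‖ ≤ 1 → (∀ t, a' t = 0 → g t = 0) → |φ g| ≤ ε := by
  have key : ∀ k : ℕ, ∃ a', S.Region a' ∧ (∀ t, a t = 0 → a' t = 0) ∧
      ∀ g : C(L, ℝ), ‖g‖ ≤ 1 → (∀ t, a' t = 0 → g t = 0) → φ g ≤ ‖φ‖ / 2 ^ k := by
    intro k
    induction k with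
    | zero =>
      refine ⟨a, ha, fun t ht => ht, ?_⟩
      intro g hg _
      rw [pow_zero, div_one]
      calc φ g ≤ |φ g| := le_abs_self _
        _ = ‖φ g‖ := (Real.norm_eq_abs _).symm
        _ ≤ ‖φ‖ * ‖g‖ := φ.le_opNorm g
        _ ≤ ‖φ‖ * 1 := by gcongr
        _ = ‖φ‖ := mul_one _
    | succ k ih =>
      obtain ⟨b, hb, hba, hP⟩ := ih
      obtain ⟨b1, b2, hb1, hb2, h1, h2, hdis⟩ := hb.split
      by_contra hcon
      push Not at hcon
      obtain ⟨g1, hg1, hs1, hlt1⟩ := hcon b1 hb1 fun t ht => h1 t (hba t ht)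
      obtain ⟨g2, hg2, hs2, hlt2⟩ := hcon b2 hb2 fun t ht => h2 t (hba t ht)
      have h3 := hP (g1 + g2) (by
        rw [ContinuousMap.norm_le _ zero_le_one]
        intro t
        rw [ContinuousMap.norm_le _ zero_le_one] at hg1 hg2
        rw [ContinuousMap.add_apply]
        rcases hdis t with h | h
        · rw [hs1 t h, zero_add]
          exact hg2 t
        · rw [hs2 t h, add_zero]
          exact hg1 t)
        (by
          intro t ht
          rw [ContinuousMap.add_apply, hs1 t (h1 t ht), hs2 t (h2 t ht), add_zero])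
      rw [map_add] at h3
      have h4 : ‖φ‖ / 2 ^ k = ‖φ‖ / 2 ^ (k + 1) + ‖φ‖ / 2 ^ (k + 1) := by
        rw [pow_succ]
        ring
      linarith
  obtain ⟨k, hk⟩ : ∃ k : ℕ, ‖φ‖ / 2 ^ k ≤ ε := by
    obtain ⟨k, hk⟩ := pow_unbounded_of_one_lt (‖φ‖ / ε) (by norm_num : (1 : ℝ) < 2)
    refine ⟨k, ?_⟩
    rw [div_lt_iff₀ hε] at hk
    rw [div_le_iff₀ (by positivity)]
    linarith [mul_comm ε ((2 : ℝ) ^ k)]
  obtain ⟨a', ha', hsub, hP⟩ := key k
  refine ⟨a', ha', hsub, ?_⟩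
  intro g hg hga
  rw [abs_le]
  constructor
  · have := hP (-g) (by rwa [norm_neg]) (fun t ht => by
      rw [ContinuousMap.neg_apply, hga t ht, neg_zero])
    rw [map_neg] at this
    linarith
  · exact (hP g hg hga).trans hk

/-- Finitely many functionals are small on some subregion. -/
theorem Region.small_finset {a : C(L, ℝ)} (ha : S.Region a) (s : Finset (C(L, ℝ) →L[ℝ] ℝ))
    {ε : ℝ} (hε : 0 < ε) :
    ∃ a', S.Region a' ∧ (∀ t, a t = 0 → a' t = 0) ∧
      ∀ φ ∈ s, ∀ g : C(L, ℝ), ‖g‖ ≤ 1 → (∀ t, a' t = 0 → g t = 0) → |φ g| ≤ ε := by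
  classical
  induction s using Finset.induction_on with
  | empty => exact ⟨a, ha, fun t ht => ht, by simp⟩
  | insert φ s _ ih =>
    obtain ⟨b, hb, hba, h⟩ := ih
    obtain ⟨b', hb', hbb, h'⟩ := hb.small φ hε
    refine ⟨b', hb', fun t ht => hbb t (hba t ht), ?_⟩
    intro φ' hφ' g hg hgb
    rw [Finset.mem_insert] at hφ'
    rcases hφ' with rfl | hφ'
    · exact h' g hg hgb
    · exact h φ' hφ' g hg fun t ht => hgb t (hbb t ht)

end Small

/-- Modifications of clean functions on a region and outside it can be combined. -/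
theorem Region.clean_add {b ξ γ r : C(L, ℝ)} (hb : S.Region b) (h1 : S.Clean ξ)
    (h2 : S.Clean (ξ + γ)) (h3 : S.Clean (ξ + r)) (hγ : ∀ t, b t = 0 → γ t = 0)
    (hr : ∀ t, b t ≠ 0 → r t = 0) : S.Clean (ξ + γ + r) := by
  have hval : ∀ t, b t ≠ 0 → (ξ + γ + r) t = (ξ + γ) t := by
    intro t ht
    rw [ContinuousMap.add_apply, hr t ht, add_zero]
  have hval' : ∀ t, b t = 0 → (ξ + γ + r) t = (ξ + r) t := by
    intro t ht
    rw [ContinuousMap.add_apply, ContinuousMap.add_apply, ContinuousMap.add_apply, hγ t ht,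
      add_zero]
  refine ⟨?_, ?_⟩
  · intro t
    by_cases ht : b t = 0
    · rw [hval' t ht]
      exact h3.1 t
    · rw [hval t ht]
      exact h2.1 t
  · intro n
    by_cases hn : n ∈ S.ta b
    · have hpn : b (S.p n) ≠ 0 := hn
      rw [hval _ hpn]
      refine ⟨(h2.2 n).1, ?_⟩
      intro t ht
      have hr0 : r t = 0 := by
        have g1 := (h3.2 n).2 t ht
        have g2 := (h1.2 n).2 t ht
        rw [ContinuousMap.add_apply, ContinuousMap.add_apply, hr _ hpn, add_zero] at g1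
        linarith
      rw [← (h2.2 n).2 t ht, ContinuousMap.add_apply (ξ + γ) r, hr0, add_zero]
    · have h4 : ∀ t, S.ψ n t ≠ 0 → b t = 0 := fun t ht => hb.zero_of_notMem hn ht
      rw [hval' _ (h4 _ (S.ψp' n))]
      refine ⟨(h3.2 n).1, ?_⟩
      intro t ht
      rw [hval' t (h4 t ht)]
      exact (h3.2 n).2 t ht

end Sys

end Pool.Agent.Lib.MP_245eb3_an.FS
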